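import Pool.Agent.H63.WT.TC

/-!
# The relaxed local lemma, row SUM: a rational point with `c₁ + c₂ = 0`
-/

set_option autoImplicit false

open Polynomial Matrix Pool.Agent.H63.WT

namespace Pool.Agent.H90.WT

section basics

variable {F : Type} [Field F]

theorem cop_C (P : F[X]) {m : F} (hm : m ≠ 0) : IsCoprime P (C m) :=
  ⟨0, C m⁻¹, by rw [zero_mul, zero_add, ← C_mul, inv_mul_cancel₀ hm, C_1]⟩

theorem cop_lin {P : F[X]} {t : F} (h : eval t P ≠ 0) : IsCoprime P (X - C t) := by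
  refine ((irreducible_X_sub_C t).coprime_iff_not_dvd.2 fun hd => h ?_).symm
  exact dvd_iff_isRoot.1 hd

theorem sq_cancel {a b : F} (ha : a ≠ 0) (h1 : IsSquare a) (h2 : IsSquare (a * b)) :
    IsSquare b := by
  have : b = a * b / a := by field_simp
  rw [this]
  exact h2.div h1

end basics

/-- the sum of the two values at a linear polynomial, and the discriminant of the quaternary
form -/
theorem sum_val {F : Type} [Field F] [CharZero F] (hLA : LA F)
    (hEU8 : T_EU8) (hEU2 : T_EU2) (hSSQ : T_SSQ) (hONE : T_ONE) (hSYF : T_SYF) (hCAD : T_CAD)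
    (hNNR : T_NNR) (hGDT : T_GDT) {m : F} {M0 P1 P2 R1 R2 U1 U2 : F[X]}
    (hD : Dt m M0 P1 P2 R1 R2 U1 U2) {t : F} (ht0 : eval t M0 ≠ 0) (htP : eval t (P1 * P2) ≠ 0)
    (hts : IsSquare (m * eval t M0)) :
    IsSquare (nn M0 (P1 * P2 * (X - C t))) ∧
    cc P1 P2 R1 (C m * M0) (X - C t) + cc P2 P1 R2 (C m * M0) (X - C t) =
      -G m M0 (P1 * P2 * (X - C t)) := by
  have h2 : (2 : F) ≠ 0 := two_ne_zero
  obtain ⟨m0, mon0, sep0, deg0, mon1, mon2, monR1, monR2, monU1, monU2, fac1, fac2, sep, cop,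
    even1, odd2, sq1, sq2, ram1, ram2, nn1, nn2⟩ := hD
  set P := P1 * P2 with hP
  set T : F[X] := X - C t with hT
  have monP : P.Monic := mon1.mul mon2
  have monT : T.Monic := monic_X_sub_C t
  have degT : T.natDegree = 1 := natDegree_X_sub_C t
  have degP : Odd P.natDegree := by
    rw [hP, mon1.natDegree_mul mon2]
    exact even1.add_odd odd2
  have copPT : IsCoprime P T := cop_lin htP
  have copMT : IsCoprime M0 T := cop_lin ht0
  have copPM : IsCoprime P (C m * M0) := (cop_C P m0).mul_right cop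
  have cop12 : IsCoprime P1 P2 := sep.isCoprime
  have cop1M : IsCoprime P1 (C m * M0) := (IsCoprime.mul_left_iff.1 copPM).1
  have cop2M : IsCoprime P2 (C m * M0) := (IsCoprime.mul_left_iff.1 copPM).2
  have cop1T : IsCoprime P1 T := (IsCoprime.mul_left_iff.1 copPT).1
  have cop2T : IsCoprime P2 T := (IsCoprime.mul_left_iff.1 copPT).2
  -- the values with `P1`, `P2` in place of `R1`, `R2`
  have hc1 := (hCAD F hLA P1 P2 R1 U1 (C m * M0) mon1 mon2 monR1 monU1 fac1 sep copPM sq1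
    nn1).2.2.2 T cop1T
  have sep' : (P2 * P1).Separable := by rw [mul_comm]; exact sep
  have copPM' : IsCoprime (P2 * P1) (C m * M0) := by rw [mul_comm P2 P1]; exact copPM
  have hc2 := (hCAD F hLA P2 P1 R2 U2 (C m * M0) mon2 mon1 monR2 monU2 fac2 sep' copPM' sq2
    nn2).2.2.2 T cop2T
  have h8 := hEU8 F h2 P1 P2 (C m * M0) mon1 mon2 cop12 copPM
  have hsy := hSYF F hLA P1 P2 (C m * M0) T mon1 mon2 sep copPM copPT
  have copMP : IsCoprime T M0 := copMT.symm
  obtain ⟨he1, he2⟩ := hEU2 F h2 m M0 P T m0 mon0 deg0 monP monT copPT cop copMP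
  have hev : Even (P.natDegree + T.natDegree) := by
    rw [degT]
    exact degP.add_odd odd_one
  rw [if_pos hev] at he1 he2
  obtain ⟨y, hy⟩ := hts
  have hy0 : y ≠ 0 := by
    rintro rfl
    rw [mul_zero] at hy
    exact mul_ne_zero m0 ht0 hy
  have hs1 := (hSSQ F h2 T monT).2.1 t rfl (C m * M0 * P) (by
    rw [eval_mul, eval_mul, eval_C]
    exact mul_ne_zero (mul_ne_zero m0 ht0) htP)
  have hs2 := (hSSQ F h2 T monT).2.1 t rfl P htP
  have hon : on (eval t (C m * M0 * P)) = on (eval t P) := by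
    have : eval t (C m * M0 * P) = eval t P * y ^ 2 := by
      rw [eval_mul, eval_mul, eval_C, hy]; ring
    rw [this]
    exact (hONE F h2).1 _ _ htP hy0
  constructor
  · -- the discriminant
    have g := hGDT F M0 mon0
    have e1 : nn M0 (P * T) = nn M0 P * nn M0 T := g.2.2.2.1 P T
    have e2 : nn M0 T = eval t M0 := by
      rw [(hNNR F M0 T mon0 monT).2, (hGDT F T monT).2.2.2.2.2.2 t rfl M0, deg0, degT]
      norm_num
    have e3 : nn M0 P = nn P M0 := by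
      rw [(hNNR F M0 P mon0 monP).2, deg0]
      rw [Even.neg_one_pow ⟨2 * P.natDegree, by ring⟩, one_mul]
    have e4 : IsSquare (nn P (C m * M0)) := by
      rw [(hNNR F P1 P2 mon1 mon2).1]
      exact nn1.mul nn2
    have e5 : nn P (C m * M0) = m ^ P.natDegree * nn P M0 := by
      rw [(hGDT F P monP).2.2.2.1, (hGDT F P monP).2.2.2.2.1]
    obtain ⟨j, hj⟩ := degP
    have e6 : IsSquare (m * nn P M0) := by
      refine sq_cancel (a := (m ^ j) ^ 2) (pow_ne_zero _ (pow_ne_zero _ m0))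
        ⟨m ^ j, by ring⟩ ?_
      have : (m ^ j) ^ 2 * (m * nn P M0) = nn P (C m * M0) := by
        rw [e5, hj]; ring
      rw [this]
      exact e4
    rw [e1, e2, e3]
    refine sq_cancel (a := m ^ 2) (pow_ne_zero _ m0) ⟨m, by ring⟩ ?_
    have : m ^ 2 * (nn P M0 * eval t M0) = (m * nn P M0) * (m * eval t M0) := by ring
    rw [this]
    exact e6.mul ⟨y, hy⟩
  · have hq : qc P1 P2 (C m * M0) + qc P2 P1 (C m * M0) = S P (C m * M0) - S P 1 := h8
    have hsyP : sy P (C m * M0) T =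
        S P 1 - S P (C m * M0) - S P T + S P (C m * M0 * T) := rfl
    unfold cc
    rw [degT, one_nsmul, one_nsmul, ← hc1, ← hc2]
    have : qc P1 P2 (C m * M0) + sy P1 (C m * M0) T + (qc P2 P1 (C m * M0) + sy P2 (C m * M0) T) =
        (qc P1 P2 (C m * M0) + qc P2 P1 (C m * M0)) +
          (sy P1 (C m * M0) T + sy P2 (C m * M0) T) := by abel
    rw [this, hq, ← hsy, hsyP]
    rw [hs1, hon] at he1
    rw [hs2] at he2
    have e7 : S P (C m * M0 * T) = -(on (eval t P)) - G m M0 (P * T) := by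
      rw [eq_sub_iff_add_eq, eq_neg_iff_add_eq_zero]
      rw [← he1]; abel
    have e8 : S P T = -(on (eval t P)) := by
      rw [eq_neg_iff_add_eq_zero]
      exact he2
    rw [e7, e8]
    abel

theorem pf_SUM (hPTB : T_PTB) (hFWD : T_FWD) (hEU8 : T_EU8) (hEU2 : T_EU2) (hSSQ : T_SSQ)
    (hONE : T_ONE) (hSYF : T_SYF) (hCAD : T_CAD) (hEU9 : T_EU9) (hNNR : T_NNR) (hGDT : T_GDT)
    (hLAL : T_LAL) : T_SUM := by
  classical
  intro F _ _ _ _ m M0 P1 P2 R1 R2 U1 U2 hD hex Z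
  have h2 : (2 : F) ≠ 0 := two_ne_zero
  have hLA := hLAL F
  have hP0 : P1 * P2 ≠ 0 := (hD.mon1.mul hD.mon2).ne_zero
  have key : ∀ t : F, eval t M0 ≠ 0 → eval t (P1 * P2) ≠ 0 → IsSquare (m * eval t M0) →
      IsSquare (nn M0 (P1 * P2 * (X - C t))) ∧
      cc P1 P2 R1 (C m * M0) (X - C t) + cc P2 P1 R2 (C m * M0) (X - C t) =
        -G m M0 (P1 * P2 * (X - C t)) := fun t h1 h3 h4 =>
    sum_val hLA hEU8 hEU2 hSSQ hONE hSYF hCAD hNNR hGDT hD h1 h3 h4
  have hcop : ∀ t : F, eval t M0 ≠ 0 → IsCoprime M0 (P1 * P2 * (X - C t)) := fun t h =>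
    hD.cop.symm.mul_right (cop_lin h)
  have hfin : ∀ t : F, eval t M0 ≠ 0 → eval t (P1 * P2) ≠ 0 → IsSquare (m * eval t M0) →
      Met (gm M0 (P1 * P2 * (X - C t))) →
      cc P1 P2 R1 (C m * M0) (X - C t) + cc P2 P1 R2 (C m * M0) (X - C t) = 0 := by
    intro t h1 h3 h4 h5
    obtain ⟨hs, hv⟩ := key t h1 h3 h4
    have := (((hEU9 F h2).1 m M0 _ hD.m0 hD.mon0 hD.deg0 (hcop t h1)).2 hs).2.2 h5
    rw [hv, this, neg_zero]
  obtain ⟨t1, ht1⟩ := hex
  obtain ⟨t0, hZ0, _, hm0, hs0⟩ := (hPTB F m M0 hD.m0 hD.mon0 hD.sep0 hD.deg0).1 t1 1 one_pos ht1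
    (Z ∪ (P1 * P2).roots.toFinset)
  rw [Finset.mem_union, not_or] at hZ0
  have hroot : ∀ t : F, t ∉ (P1 * P2).roots.toFinset → eval t (P1 * P2) ≠ 0 := by
    intro t ht h
    exact ht (Multiset.mem_toFinset.2 ((mem_roots hP0).2 h))
  have hM0 : eval t0 M0 ≠ 0 := (mul_ne_zero_iff.1 hm0).2
  by_cases hmet : Met (gm M0 (P1 * P2 * (X - C t0)))
  · exact ⟨t0, hZ0.1, hM0, hroot t0 hZ0.2, hs0, hfin t0 hM0 (hroot t0 hZ0.2) hs0 hmet⟩
  · have hsq := (key t0 hM0 (hroot t0 hZ0.2) hs0).1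
    have h9 := ((hEU9 F h2).1 m M0 _ hD.m0 hD.mon0 hD.deg0 (hcop t0 hM0)).2 hsq
    have hanis : Anis (gm M0 (P1 * P2 * (X - C t0))) := by
      by_contra hna
      exact hmet (h9.2.1 (h9.1.2 hna))
    obtain ⟨t, htZ, htM, htmet, hts⟩ := hFWD F M0 (P1 * P2) t0 hD.mon0 hD.sep0 hD.deg0
      hD.cop.symm hM0 hanis (Z ∪ (P1 * P2).roots.toFinset)
    rw [Finset.mem_union, not_or] at htZ
    have hsqt : IsSquare (m * eval t M0) := by
      refine sq_cancel (a := eval t0 M0 ^ 2) (pow_ne_zero _ hM0) ⟨eval t0 M0, by ring⟩ ?_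
      have : eval t0 M0 ^ 2 * (m * eval t M0) = (eval t M0 * eval t0 M0) * (m * eval t0 M0) := by
        ring
      rw [this]
      exact hts.mul hs0
    exact ⟨t, htZ.1, htM, hroot t htZ.2, hsqt, hfin t htM (hroot t htZ.2) hsqt htmet⟩

end Pool.Agent.H90.WT
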